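import Pool.Agent.Helper58.QD.Stub

/-!
# Quantifier gap, block D: elimination of a bounded quantifier
-/

set_option autoImplicit false

namespace Pool.Agent.Helper31.QD

open FirstOrder Pool.Agent.Helper20.Spectra Pool.Agent.Helper58.QD

/-! ## Definability on finite structures -/

/-- definable on the finite structures -/
def DL (L : FirstOrder.Language.{0, 0}) (α : Type) (P : ∀ (M : Type) [L.Structure M], (α → M) → Prop) : Prop :=
  ∃ ψ : L.Formula α, ∀ (M : Type) [L.Structure M] [Finite M] (v : α → M), ψ.Realize v ↔ P M v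

namespace DL

variable {L : FirstOrder.Language.{0, 0}} {α β : Type}

theorem congr {P Q : ∀ (M : Type) [L.Structure M], (α → M) → Prop} (h : DL L α P)
    (hPQ : ∀ (M : Type) [L.Structure M] [Finite M] (v : α → M), Q M v ↔ P M v) : DL L α Q := by
  obtain ⟨ψ, hψ⟩ := h
  exact ⟨ψ, fun M _ _ v => (hψ M v).trans (hPQ M v).symm⟩

theorem const (p : Prop) : DL L α (fun _ _ _ => p) := by
  by_cases hp : p
  · exact ⟨⊤, fun M _ _ v => by simp only [hp, iff_true]; exact Language.Formula.realize_top.2 trivial⟩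
  · exact ⟨⊥, fun M _ _ v => by simp only [hp, iff_false]; exact Language.Formula.realize_bot.1⟩

theorem eq (a b : α) : DL L α (fun _ _ v => v a = v b) :=
  ⟨Language.Term.equal (Language.Term.var a) (Language.Term.var b), fun M _ _ v => by simp [Language.Formula.realize_equal]⟩

theorem not {P : ∀ (M : Type) [L.Structure M], (α → M) → Prop} (h : DL L α P) : DL L α (fun M _ v => ¬ P M v) := by
  obtain ⟨ψ, hψ⟩ := h
  exact ⟨ψ.not, fun M _ _ v => by rw [Language.Formula.realize_not, hψ]⟩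

theorem and {P Q : ∀ (M : Type) [L.Structure M], (α → M) → Prop} (h : DL L α P) (h' : DL L α Q) :
    DL L α (fun M _ v => P M v ∧ Q M v) := by
  obtain ⟨ψ, hψ⟩ := h
  obtain ⟨θ, hθ⟩ := h'
  exact ⟨ψ ⊓ θ, fun M _ _ v => by rw [Language.Formula.realize_inf, hψ, hθ]⟩

theorem imp {P Q : ∀ (M : Type) [L.Structure M], (α → M) → Prop} (h : DL L α P) (h' : DL L α Q) :
    DL L α (fun M _ v => P M v → Q M v) := by
  obtain ⟨ψ, hψ⟩ := h
  obtain ⟨θ, hθ⟩ := h'
  exact ⟨ψ.imp θ, fun M _ _ v => by rw [Language.Formula.realize_imp, hψ, hθ]⟩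

theorem iff {P Q : ∀ (M : Type) [L.Structure M], (α → M) → Prop} (h : DL L α P) (h' : DL L α Q) :
    DL L α (fun M _ v => (P M v ↔ Q M v)) := by
  obtain ⟨ψ, hψ⟩ := h
  obtain ⟨θ, hθ⟩ := h'
  exact ⟨ψ.iff θ, fun M _ _ v => by rw [Language.Formula.realize_iff, hψ, hθ]⟩

theorem re {P : ∀ (M : Type) [L.Structure M], (β → M) → Prop} (h : DL L β P) (g : β → α) :
    DL L α (fun M _ v => P M (v ∘ g)) := by
  obtain ⟨ψ, hψ⟩ := h
  exact ⟨ψ.relabel g, fun M _ _ v => by rw [Language.Formula.realize_relabel, hψ]⟩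

theorem ex [Finite β] {P : ∀ (M : Type) [L.Structure M], (α → M) → (β → M) → Prop}
    (h : DL L (α ⊕ β) (fun M _ v => P M (v ∘ Sum.inl) (v ∘ Sum.inr))) : DL L α (fun M _ v => ∃ x : β → M, P M v x) := by
  obtain ⟨ψ, hψ⟩ := h
  refine ⟨ψ.iExs β, fun M _ _ v => ?_⟩
  rw [Language.Formula.realize_iExs]
  apply exists_congr
  intro x
  rw [hψ]
  rfl

theorem ex1 {P : ∀ (M : Type) [L.Structure M], (α → M) → M → Prop}
    (h : DL L (α ⊕ Unit) (fun M _ v => P M (v ∘ Sum.inl) (v (Sum.inr ())))) : DL L α (fun M _ v => ∃ x : M, P M v x) := by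
  have h1 : DL L α (fun M _ v => ∃ x : Unit → M, P M v (x ())) := DL.ex (β := Unit) h
  refine h1.congr (fun M _ _ v => ?_)
  constructor
  · rintro ⟨x, h⟩; exact ⟨fun _ => x, h⟩
  · rintro ⟨x, h⟩; exact ⟨x (), h⟩

theorem all1 {P : ∀ (M : Type) [L.Structure M], (α → M) → M → Prop}
    (h : DL L (α ⊕ Unit) (fun M _ v => P M (v ∘ Sum.inl) (v (Sum.inr ())))) : DL L α (fun M _ v => ∀ x : M, P M v x) := by
  have h1 := (DL.ex1 (P := fun M _ v x => ¬ P M v x) h.not).not
  refine h1.congr (fun M _ _ v => ?_)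
  rw [not_exists]
  exact forall_congr' fun x => not_not.symm

theorem exFin {γ : Type} [Finite γ] {P : γ → ∀ (M : Type) [L.Structure M], (α → M) → Prop}
    (h : ∀ c, DL L α (fun M _ v => P c M v)) : DL L α (fun M _ v => ∃ c, P c M v) := by
  choose ψ hψ using h
  refine ⟨Language.Formula.iSup ψ, fun M _ _ v => ?_⟩
  rw [Language.Formula.realize_iSup]
  exact exists_congr (fun c => hψ c M v)

theorem allFin {γ : Type} [Finite γ] {P : γ → ∀ (M : Type) [L.Structure M], (α → M) → Prop}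
    (h : ∀ c, DL L α (fun M _ v => P c M v)) : DL L α (fun M _ v => ∀ c, P c M v) := by
  choose ψ hψ using h
  refine ⟨Language.Formula.iInf ψ, fun M _ _ v => ?_⟩
  rw [Language.Formula.realize_iInf]
  exact forall_congr' (fun c => hψ c M v)

end DL

/-! ## Patterns -/

variable {S : Type} {ar : S → ℕ}

/-- equality types of the pairs of a tuple and of `b` parameters -/
abbrev Pat (S : Type) (ar : S → ℕ) (b : ℕ) : Type := ∀ s : S, (Fin (ar s) ⊕ Fin b → Fin (ar s) ⊕ Fin b → Prop) → Prop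

def eqt {ι M : Type} (w : ι → M) : ι → ι → Prop := fun i j => w i = w j

/-- the relations given by a pattern -/
def RP {b : ℕ} (τ : Pat S ar b) {M : Type} (c : Fin b → M) : Interp S ar M := fun s t => τ s (eqt (Sum.elim t c))

theorem exists_perm {ι M : Type} [Finite M] (w w' : ι → M) (h : eqt w' = eqt w) : ∃ σ : Equiv.Perm M, ∀ i, σ (w' i) = w i := by
  classical
  have h1 : ∀ i j, w' i = w' j ↔ w i = w j := fun i j => iff_of_eq (congrFun (congrFun h i) j)
  let f : {x // x ∈ Set.range w'} → {x // x ∈ Set.range w} := fun x => ⟨w (Classical.choose x.2), _, rfl⟩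
  have hf : ∀ i, (f ⟨w' i, i, rfl⟩ : M) = w i := by
    intro i
    have h2 : w' (Classical.choose (⟨i, rfl⟩ : w' i ∈ Set.range w')) = w' i := Classical.choose_spec (⟨i, rfl⟩ : w' i ∈ Set.range w')
    exact (h1 _ _).1 h2
  have hbij : Function.Bijective f := by
    constructor
    · rintro ⟨-, i, rfl⟩ ⟨-, j, rfl⟩ h3
      have h4 : (f ⟨w' i, i, rfl⟩ : M) = (f ⟨w' j, j, rfl⟩ : M) := congrArg Subtype.val h3
      rw [hf, hf] at h4
      exact Subtype.ext ((h1 i j).2 h4)
    · rintro ⟨-, i, rfl⟩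
      exact ⟨⟨w' i, i, rfl⟩, Subtype.ext (hf i)⟩
  let _ := Fintype.ofFinite M
  let e := Equiv.ofBijective f hbij
  refine ⟨e.extendSubtype, fun i => ?_⟩
  rw [Equiv.extendSubtype_apply_of_mem e (w' i) ⟨i, rfl⟩]
  exact hf i

theorem pat_of_sup {b : ℕ} {M : Type} [Finite M] {R : Interp S ar M} {c : Fin b → M}
    (h : ∀ σ : Equiv.Perm M, (∀ i, σ (c i) = c i) → ∀ s t, R s (σ ∘ t) ↔ R s t) : ∃ τ : Pat S ar b, R = RP τ c := by
  refine ⟨fun s E => ∃ t, R s t ∧ eqt (Sum.elim t c) = E, ?_⟩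
  funext s t
  apply propext
  constructor
  · intro h1
    exact ⟨t, h1, rfl⟩
  · rintro ⟨t', h1, h2⟩
    obtain ⟨σ, hσ⟩ := exists_perm (Sum.elim t c) (Sum.elim t' c) h2
    have h3 := h σ (fun i => hσ (Sum.inr i)) s t'
    have h4 : σ ∘ t' = t := funext fun i => hσ (Sum.inl i)
    rw [h4] at h3
    exact h3.2 h1

section

variable {L : FirstOrder.Language.{0, 0}} {α : Type}

theorem def_RP [Finite S] {b : ℕ} (τ : Pat S ar b) (s : S) (g : Fin (ar s) → α) (h : Fin b → α) :
    DL L α (fun _ _ v => RP τ (v ∘ h) s (v ∘ g)) := by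
  have h1 : DL L α (fun _ _ v => ∃ E : (Fin (ar s) ⊕ Fin b → Fin (ar s) ⊕ Fin b → Prop), τ s E ∧
      ∀ i j, (v (Sum.elim g h i) = v (Sum.elim g h j) ↔ E i j)) := by
    apply DL.exFin
    intro E
    apply DL.and (DL.const _)
    apply DL.allFin
    intro i
    apply DL.allFin
    intro j
    exact DL.iff (DL.eq _ _) (DL.const _)
  refine h1.congr (fun M _ _ v => ?_)
  have h2 : ∀ i, Sum.elim (v ∘ g) (v ∘ h) i = v (Sum.elim g h i) := by
    intro i
    rcases i with i | i <;> rfl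
  constructor
  · intro h3
    exact ⟨_, h3, fun i j => by
      show _ ↔ Sum.elim (v ∘ g) (v ∘ h) i = Sum.elim (v ∘ g) (v ∘ h) j
      rw [h2, h2]⟩
  · rintro ⟨E, h3, h4⟩
    have h5 : eqt (Sum.elim (v ∘ g) (v ∘ h)) = E := by
      funext i j
      apply propext
      rw [← h4 i j, ← h2, ← h2]
      exact Iff.rfl
    show τ s _
    rw [h5]
    exact h3

/-- the variable of a term -/
def tv {n : ℕ} : (RelLang S ar).Term (Empty ⊕ Fin n) → Fin n
  | .var (Sum.inr j) => j
  | .var (Sum.inl e) => e.elim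
  | .func f _ => Empty.elim f

theorem tv_spec {n : ℕ} {M : Type} (R : Interp S ar M) (e : Empty → M) (xs : Fin n → M) (t : (RelLang S ar).Term (Empty ⊕ Fin n)) :
    @Language.Term.realize _ M (mkS R) _ (Sum.elim e xs) t = xs (tv t) := by
  cases t with
  | var x =>
    rcases x with x | x
    · exact x.elim
    · rfl
  | func f _ => exact Empty.elim f

theorem def_chi [Finite S] {b : ℕ} (τ : Pat S ar b) {n : ℕ} (θ : (RelLang S ar).BoundedFormula Empty n) :
    DL L (Fin n ⊕ Fin b) (fun M _ v => @Language.BoundedFormula.Realize _ M (mkS (RP τ (v ∘ Sum.inr))) _ _ θ Empty.elim (v ∘ Sum.inl)) := by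
  induction θ with
  | falsum => exact DL.const False
  | equal t u =>
    refine (DL.eq (L := L) (Sum.inl (tv t)) (Sum.inl (tv u))).congr (fun M _ _ v => ?_)
    show @Language.Term.realize _ M (mkS (RP τ (v ∘ Sum.inr))) _ (Sum.elim Empty.elim (v ∘ Sum.inl)) t =
      @Language.Term.realize _ M (mkS (RP τ (v ∘ Sum.inr))) _ (Sum.elim Empty.elim (v ∘ Sum.inl)) u ↔ _
    rw [tv_spec, tv_spec]
    rfl
  | rel r ts =>
    refine (def_RP (L := L) τ r.1 (fun i => Sum.inl (tv (ts (Fin.cast r.2 i)))) Sum.inr).congr (fun M _ _ v => ?_)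
    show RP τ (v ∘ Sum.inr) r.1 (fun i => @Language.Term.realize _ M (mkS (RP τ (v ∘ Sum.inr))) _
      (Sum.elim Empty.elim (v ∘ Sum.inl)) (ts (Fin.cast r.2 i))) ↔ _
    simp only [tv_spec]
    exact Iff.rfl
  | imp f g ihf ihg => exact DL.imp ihf ihg
  | @all n f ih =>
    apply DL.all1 (P := fun M _ v x => @Language.BoundedFormula.Realize _ M (mkS (RP τ (v ∘ Sum.inr))) _ _ f Empty.elim
      (Fin.snoc (v ∘ Sum.inl) x))
    have h1 := ih.re (α := (Fin n ⊕ Fin b) ⊕ Unit)
      (Sum.elim (fun i => Fin.lastCases (Sum.inr ()) (fun j => Sum.inl (Sum.inl j)) i) (fun k => Sum.inl (Sum.inr k)))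
    refine h1.congr (fun M _ _ v => ?_)
    have h2 : (v ∘ Sum.elim (fun i => Fin.lastCases (motive := fun _ => (Fin n ⊕ Fin b) ⊕ Unit) (Sum.inr ())
        (fun j => Sum.inl (Sum.inl j)) i) (fun k => Sum.inl (Sum.inr k))) ∘ Sum.inl =
        (Fin.snoc ((v ∘ Sum.inl) ∘ Sum.inl) (v (Sum.inr ())) : Fin (n + 1) → M) := by
      funext i
      refine Fin.lastCases ?_ (fun j => ?_) i
      · simp
      · simp
    rw [h2]
    exact Iff.rfl

theorem def_mod [Finite S] (χ : (RelLang S ar).Sentence) {b : ℕ} (τ : Pat S ar b) :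
    DL L (Fin b) (fun _ _ c => IsMod χ (RP τ c)) := by
  refine ((def_chi (L := L) τ (n := 0) χ).re (α := Fin b) (Sum.elim (fun i => i.elim0) id)).congr (fun M _ _ c => ?_)
  have h1 : (c ∘ Sum.elim (fun i : Fin 0 => i.elim0) id) ∘ Sum.inl = (default : Fin 0 → M) := funext fun i => i.elim0
  have h2 : (Empty.elim : Empty → M) = default := funext fun i => i.elim
  rw [h1, h2]
  exact Iff.rfl

end

theorem isMod_transport {χ : (RelLang S ar).Sentence} {M N : Type} {R : Interp S ar M} (h : IsMod χ R) (e : M ≃ N) :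
    IsMod χ (fun s (t : Fin (ar s) → N) => R s (e.symm ∘ t)) := by
  let _ := mkS R
  let _ := mkS (fun s (t : Fin (ar s) → N) => R s (e.symm ∘ t))
  let E : M ≃[RelLang S ar] N :=
    { e with
      map_fun' := fun f => Empty.elim f
      map_rel' := by
        intro n r x
        show R r.1 _ ↔ R r.1 _
        have : (e.symm ∘ fun i => (e ∘ x) (Fin.cast r.2 i)) = fun i => x (Fin.cast r.2 i) := by
          funext i
          simp
        exact Iff.of_eq (congrArg _ this) }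
  exact (Language.StrongHomClass.realize_sentence E χ).1 h

theorem exists_pat {χ : (RelLang S ar).Sentence} {b : ℕ}
    (hb : ∀ (n : ℕ) (R : Interp S ar (Fin n)), IsMod χ R → ∃ C : Finset (Fin n), C.card ≤ b ∧ SupI R C)
    {M : Type} [Finite M] {R : Interp S ar M} (hR : IsMod χ R) :
    ∃ (k : Fin (b + 1)) (τ : Pat S ar k) (c : Fin k → M), R = RP τ c := by
  let e : M ≃ Fin (Nat.card M) := Finite.equivFin M
  obtain ⟨C, hC1, hC2⟩ := hb _ _ (isMod_transport hR e)
  let c : Fin C.card → M := fun i => e.symm (C.equivFin.symm i : Fin (Nat.card M))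
  obtain ⟨τ, hτ⟩ := pat_of_sup (R := R) (c := c) (fun σ hσ s t => by
    have h1 := hC2 s (e.symm.trans (σ.trans e)) (fun z hz => by
      have h2 := hσ (C.equivFin ⟨z, hz⟩)
      simp only [c, Equiv.symm_apply_apply] at h2
      simp only [Equiv.trans_apply]
      rw [h2, Equiv.apply_symm_apply]) (e ∘ t)
    have h3 : (R s fun i => e.symm ((e.symm.trans (σ.trans e)) (e (t i)))) ↔ (R s fun i => e.symm (e (t i))) := h1
    simp only [Equiv.trans_apply, Equiv.symm_apply_apply] at h3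
    exact h3)
  exact ⟨⟨C.card, by omega⟩, τ, c, hτ⟩

theorem elim_main [Finite S] {χ : (RelLang S ar).Sentence} {b : ℕ}
    (hb : ∀ (n : ℕ) (R : Interp S ar (Fin n)), IsMod χ R → ∃ C : Finset (Fin n), C.card ≤ b ∧ SupI R C)
    {L : FirstOrder.Language.{0, 0}} {α β : Type} (φ : QFm L S ar α β) :
    ∀ (α' : Type) (f : α → α') (P : β → Σ b' : ℕ, Pat S ar b') (g : ∀ j, Fin (P j).1 → α'),
      DL L α' (fun M _ v => φ.Holds χ (v ∘ f) (fun j => RP (P j).2 (v ∘ g j))) := by
  induction φ with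
  | fo φ =>
    intro α' f P g
    exact ⟨φ.relabel f, fun M _ _ v => by rw [Language.Formula.realize_relabel]; exact Iff.rfl⟩
  | rel j s t =>
    intro α' f P g
    exact def_RP (P j).2 s (f ∘ t) (g j)
  | not φ ih =>
    intro α' f P g
    exact (ih α' f P g).not
  | and φ ψ ih1 ih2 =>
    intro α' f P g
    exact (ih1 α' f P g).and (ih2 α' f P g)
  | @ex α β φ ih =>
    intro α' f P g
    apply DL.ex1 (P := fun _ _ v x => φ.Holds χ (Sum.elim (v ∘ f) (fun _ => x)) (fun j => RP (P j).2 (v ∘ g j)))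
    refine (ih (α' ⊕ Unit) (Sum.map f id) P (fun j i => Sum.inl (g j i))).congr (fun M _ _ v => ?_)
    have h1 : v ∘ Sum.map f id = Sum.elim ((v ∘ Sum.inl) ∘ f) (fun _ => v (Sum.inr ())) := by
      funext i
      rcases i with i | i <;> rfl
    rw [h1]
    exact Iff.rfl
  | @exR α β φ ih =>
    intro α' f P g
    have h1 : DL L α' (fun M _ v => ∃ k : Fin (b + 1), ∃ τ : Pat S ar k, ∃ c : Fin (k : ℕ) → M, IsMod χ (RP τ c) ∧
        φ.Holds χ (v ∘ f) (Sum.elim (fun j => RP (P j).2 (v ∘ g j)) (fun _ => RP τ c))) := by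
      apply DL.exFin
      intro k
      apply DL.exFin
      intro τ
      apply DL.ex (β := Fin (k : ℕ)) (P := fun M _ v c => IsMod χ (RP τ c) ∧
        φ.Holds χ (v ∘ f) (Sum.elim (fun j => RP (P j).2 (v ∘ g j)) (fun _ => RP τ c)))
      apply DL.and
      · exact (def_mod χ τ).re Sum.inr
      · refine (ih (α' ⊕ Fin (k : ℕ)) (Sum.inl ∘ f) (Sum.elim P (fun _ => ⟨k, τ⟩)) (fun j => match j with
          | Sum.inl j => fun i => Sum.inl (g j i)
          | Sum.inr _ => fun i => Sum.inr i)).congr (fun M _ _ v => ?_)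
        have h2 : (fun j : β ⊕ Unit => RP (Sum.elim P (fun _ => (⟨k, τ⟩ : Σ b' : ℕ, Pat S ar b')) j).2 (v ∘ (match j with
          | Sum.inl j => fun i => Sum.inl (g j i)
          | Sum.inr _ => fun i => Sum.inr i : Fin (Sum.elim P (fun _ => (⟨k, τ⟩ : Σ b' : ℕ, Pat S ar b')) j).1 → α' ⊕ Fin (k : ℕ)))) =
          Sum.elim (fun j => RP (P j).2 ((v ∘ Sum.inl) ∘ g j)) (fun _ => RP τ (v ∘ Sum.inr)) := by
          funext j
          rcases j with j | j <;> rfl
        rw [h2]
        exact Iff.rfl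
    refine h1.congr (fun M _ _ v => ?_)
    constructor
    · rintro ⟨R, hR, h2⟩
      obtain ⟨k, τ, c, rfl⟩ := exists_pat hb hR
      exact ⟨k, τ, c, hR, h2⟩
    · rintro ⟨k, τ, c, hR, h2⟩
      exact ⟨_, hR, h2⟩

theorem elim : StmtElim := by
  intro S _ ar χ hB L α φ
  obtain ⟨b, hb⟩ := hB
  obtain ⟨ψ, hψ⟩ := elim_main hb φ α id Empty.elim (fun j => j.elim)
  refine ⟨ψ, fun M _ _ v => ?_⟩
  rw [hψ M v]
  have h1 : (Empty.elim : Empty → Interp S ar M) = (fun j : Empty => RP ((Empty.elim j : Σ b' : ℕ, Pat S ar b')).2 (v ∘ (j.elim))) := funext fun j => j.elim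
  rw [h1]
  exact Iff.rfl

end Pool.Agent.Helper31.QD
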