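import Pool.Agent.Helper58.QD.Stub

/-!
# Quantifier gap, block B: shrinking a model with a large minimal support
-/

set_option autoImplicit false

namespace Pool.Agent.Helper31.QD

open FirstOrder Pool.Agent.Helper20.Spectra Pool.Agent.Helper58.QD

variable {S : Type} {ar : S → ℕ}

/-- `σ` is an automorphism -/
def Au {M : Type} (R : Interp S ar M) (σ : Equiv.Perm M) : Prop := ∀ s t, R s (σ ∘ t) ↔ R s t

/-- quantifier depth -/
def qd {L : FirstOrder.Language.{0, 0}} {α : Type} : {n : ℕ} → L.BoundedFormula α n → ℕ
  | _, .falsum => 0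
  | _, .equal _ _ => 0
  | _, .rel _ _ => 0
  | _, .imp f g => max (qd f) (qd g)
  | _, .all f => qd f + 1

/-- the substructure -/
def resI {M : Type} (R : Interp S ar M) (W : Finset M) : Interp S ar W := fun s t => R s (fun i => (t i : M))

/-- truth is invariant under the automorphisms -/
theorem aut {M : Type} {R : Interp S ar M} (σ : Equiv.Perm M) (h : ∀ s t, R s (σ ∘ t) ↔ R s t) {n : ℕ}
    (φ : (RelLang S ar).BoundedFormula Empty n) (v : Empty → M) (xs : Fin n → M) :
    @Language.BoundedFormula.Realize _ M (mkS R) _ _ φ v (σ ∘ xs) ↔ @Language.BoundedFormula.Realize _ M (mkS R) _ _ φ v xs := by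
  let _ := mkS R
  let E : M ≃[RelLang S ar] M :=
    { σ with
      map_fun' := fun f => Empty.elim f
      map_rel' := by
        intro n r x
        exact h r.1 (fun i => x (Fin.cast r.2 i)) }
  have h1 := Language.StrongHomClass.realize_boundedFormula E φ (v := v) (xs := xs)
  have h2 : (E ∘ v : Empty → M) = v := funext fun e => e.elim
  rw [h2] at h1
  exact h1

theorem term_var {M : Type} (R : Interp S ar M) (W : Finset M) {n : ℕ} (t : (RelLang S ar).Term (Empty ⊕ Fin n))
    (v : Empty → W) (xs : Fin n → W) :
    @Language.Term.realize _ M (mkS R) _ (Sum.elim (fun e => (v e : M)) (fun i => (xs i : M))) t =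
      ((@Language.Term.realize _ W (mkS (resI R W)) _ (Sum.elim v xs) t : W) : M) := by
  cases t with
  | var x =>
    rcases x with x | x
    · exact x.elim
    · rfl
  | func f _ => exact Empty.elim f

theorem ef {M : Type} [DecidableEq M] {R : Interp S ar M} {C B : Finset M} (hC : SupI R C) (hd : Disjoint C B) {n : ℕ}
    (φ : (RelLang S ar).BoundedFormula Empty n) : n + qd φ ≤ B.card → ∀ (v : Empty → (C ∪ B : Finset M)) (xs : Fin n → (C ∪ B : Finset M)),
    (@Language.BoundedFormula.Realize _ M (mkS R) _ _ φ (fun e => (v e : M)) (fun i => (xs i : M)) ↔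
      @Language.BoundedFormula.Realize _ (C ∪ B : Finset M) (mkS (resI R (C ∪ B))) _ _ φ v xs) := by
  induction φ with
  | falsum => intro _ v xs; exact Iff.rfl
  | equal t u =>
    intro _ v xs
    have h1 := term_var R (C ∪ B) t v xs
    have h2 := term_var R (C ∪ B) u v xs
    constructor
    · intro h
      have h' : @Language.Term.realize _ M (mkS R) _ (Sum.elim (fun e => (v e : M)) (fun i => (xs i : M))) t =
        @Language.Term.realize _ M (mkS R) _ (Sum.elim (fun e => (v e : M)) (fun i => (xs i : M))) u := h
      rw [h1, h2] at h'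
      exact Subtype.ext h'
    · intro h
      have h' : @Language.Term.realize _ (C ∪ B : Finset M) (mkS (resI R (C ∪ B))) _ (Sum.elim v xs) t =
        @Language.Term.realize _ (C ∪ B : Finset M) (mkS (resI R (C ∪ B))) _ (Sum.elim v xs) u := h
      show @Language.Term.realize _ M (mkS R) _ (Sum.elim (fun e => (v e : M)) (fun i => (xs i : M))) t =
        @Language.Term.realize _ M (mkS R) _ (Sum.elim (fun e => (v e : M)) (fun i => (xs i : M))) u
      rw [h1, h2, h']
  | rel r ts =>
    intro _ v xs
    show R r.1 (fun i => @Language.Term.realize _ M (mkS R) _ (Sum.elim (fun e => (v e : M)) (fun i => (xs i : M))) (ts (Fin.cast r.2 i))) ↔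
      R r.1 (fun i => ((@Language.Term.realize _ (C ∪ B : Finset M) (mkS (resI R (C ∪ B))) _ (Sum.elim v xs) (ts (Fin.cast r.2 i)) : (C ∪ B : Finset M)) : M))
    simp only [term_var]
  | imp f g ihf ihg =>
    intro hn v xs
    have h1 : qd (f.imp g) = max (qd f) (qd g) := rfl
    rw [h1] at hn
    have h2 := ihf (by omega) v xs
    have h3 := ihg (by omega) v xs
    exact imp_congr h2 h3
  | @all n f ih =>
    intro hn v xs
    have h1 : qd f.all = qd f + 1 := rfl
    rw [h1] at hn
    have ih' := ih (by omega)
    have key : ∀ x : (C ∪ B : Finset M), (@Language.BoundedFormula.Realize _ M (mkS R) _ _ f (fun e => (v e : M))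
        (Fin.snoc (fun i => (xs i : M)) (x : M)) ↔
        @Language.BoundedFormula.Realize _ (C ∪ B : Finset M) (mkS (resI R (C ∪ B))) _ _ f v (Fin.snoc xs x)) := by
      intro x
      rw [← ih' v (Fin.snoc xs x)]
      have : (fun i => ((Fin.snoc xs x : Fin (n + 1) → (C ∪ B : Finset M)) i : M)) = Fin.snoc (fun i => (xs i : M)) (x : M) := by
        funext i
        refine Fin.lastCases ?_ (fun j => ?_) i
        · simp
        · simp
      rw [this]
    show (∀ a : M, @Language.BoundedFormula.Realize _ M (mkS R) _ _ f (fun e => (v e : M)) (Fin.snoc (fun i => (xs i : M)) a)) ↔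
      (∀ a : (C ∪ B : Finset M), @Language.BoundedFormula.Realize _ (C ∪ B : Finset M) (mkS (resI R (C ∪ B))) _ _ f v (Fin.snoc xs a))
    constructor
    · intro h x
      exact (key x).1 (h x)
    · intro h x
      by_cases hx : x ∈ C ∪ B
      · exact (key ⟨x, hx⟩).2 (h ⟨x, hx⟩)
      · -- a point of `B` which is not a value
        have hex : ∃ y ∈ B, y ∉ Finset.univ.image (fun i => (xs i : M)) := by
          apply Finset.exists_mem_notMem_of_card_lt_card
          have h3 : (Finset.univ.image (fun i => (xs i : M))).card ≤ n := by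
            refine Finset.card_image_le.trans ?_
            simp
          omega
        obtain ⟨y, hy, hyx⟩ := hex
        have hσ : ∀ s t, R s (Equiv.swap x y ∘ t) ↔ R s t := by
          intro s t
          refine hC s _ ?_ t
          intro c hc
          apply Equiv.swap_apply_of_ne_of_ne
          · rintro rfl
            exact hx (Finset.mem_union_left _ hc)
          · rintro rfl
            exact (Finset.disjoint_left.1 hd) hc hy
        have h4 := (key ⟨y, Finset.mem_union_right _ hy⟩).2 (h ⟨y, Finset.mem_union_right _ hy⟩)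
        have h5 := (aut (Equiv.swap x y) hσ f (fun e => (v e : M)) (Fin.snoc (fun i => (xs i : M)) y)).2 h4
        have h6 : (Equiv.swap x y ∘ (Fin.snoc (fun i => (xs i : M)) y : Fin (n + 1) → M)) = Fin.snoc (fun i => (xs i : M)) x := by
          funext i
          refine Fin.lastCases ?_ (fun j => ?_) i
          · simp
          · simp only [Function.comp_apply, Fin.snoc_castSucc]
            apply Equiv.swap_apply_of_ne_of_ne
            · intro h7
              exact hx (h7 ▸ (xs j).2)
            · intro h7
              exact hyx (Finset.mem_image.2 ⟨j, Finset.mem_univ _, h7⟩)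
        rw [h6] at h5
        exact h5

theorem Au.mul {M : Type} {R : Interp S ar M} {σ τ : Equiv.Perm M} (h1 : Au R σ) (h2 : Au R τ) : Au R (σ * τ) := by
  intro s t
  exact (h1 s (τ ∘ t)).trans (h2 s t)

theorem SupI.au {M : Type} {R : Interp S ar M} {C : Finset M} (h : SupI R C) {σ : Equiv.Perm M} (hσ : ∀ x ∈ C, σ x = x) : Au R σ :=
  fun s t => h s σ hσ t

/-- one point of a support which is exchangeable with a point outside is superfluous -/
theorem sup_erase {M : Type} [DecidableEq M] {R : Interp S ar M} {C : Finset M} (h : SupI R C) {x y : M} (hx : x ∈ C) (hy : y ∉ C)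
    (hxy : Au R (Equiv.swap x y)) : SupI R (C.erase x) := by
  intro s σ hσ t
  revert s t
  show Au R σ
  by_cases h1 : σ x = x
  · apply SupI.au h
    intro c hc
    by_cases hcx : c = x
    · rw [hcx]; exact h1
    · exact hσ c (Finset.mem_erase.2 ⟨hcx, hc⟩)
  · set z := σ x with hz
    have hzC : z ∉ C := by
      intro h2
      have h3 := hσ z (Finset.mem_erase.2 ⟨h1, h2⟩)
      exact h1 (σ.injective h3)
    have hxz : Au R (Equiv.swap x z) := by
      by_cases hyz : y = z
      · rw [← hyz]; exact hxy
      · have h4 : Au R (Equiv.swap y z) := by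
          apply SupI.au h
          intro c hc
          apply Equiv.swap_apply_of_ne_of_ne
          · rintro rfl; exact hy hc
          · rintro rfl; exact hzC hc
        have hxy' : x ≠ y := by rintro rfl; exact hy hx
        have h5 : Equiv.swap x z = Equiv.swap y z * Equiv.swap x y * Equiv.swap y z := by
          rw [Equiv.swap_mul_swap_mul_swap hxy' (fun h => h1 h.symm)]
          exact Equiv.swap_comm _ _
        rw [h5]
        exact (h4.mul hxy).mul h4
    have h6 : Au R (Equiv.swap x z * σ) := by
      apply SupI.au h
      intro c hc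
      by_cases hcx : c = x
      · rw [hcx, Equiv.Perm.mul_apply, ← hz, Equiv.swap_apply_right]
      · rw [Equiv.Perm.mul_apply, hσ c (Finset.mem_erase.2 ⟨hcx, hc⟩)]
        apply Equiv.swap_apply_of_ne_of_ne hcx
        rintro rfl
        exact hzC hc
    have h7 : σ = Equiv.swap x z * (Equiv.swap x z * σ) := by
      rw [← mul_assoc, Equiv.swap_mul_self, one_mul]
    rw [h7]
    exact hxz.mul h6

/-- exchangeability is seen in the small structure -/
theorem au_swap {M : Type} [DecidableEq M] {R : Interp S ar M} {C B : Finset M} (h : SupI R C) (hd : Disjoint C B) {x y : M} (hx : x ∈ C)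
    (hy : y ∈ B) (hk : ∀ s, ar s < B.card)
    (hW : ∀ s (t : Fin (ar s) → M), (∀ i, t i ∈ C ∪ B) → (R s (Equiv.swap x y ∘ t) ↔ R s t)) : Au R (Equiv.swap x y) := by
  intro s
  have key : ∀ m : ℕ, ∀ t : Fin (ar s) → M, (Finset.univ.filter fun i => t i ∉ C ∪ B).card ≤ m →
      (R s (Equiv.swap x y ∘ t) ↔ R s t) := by
    intro m
    induction m with
    | zero =>
      intro t ht
      apply hW
      intro i
      by_contra hi
      have : i ∈ (∅ : Finset (Fin (ar s))) := by
        rw [← Finset.card_eq_zero.1 (Nat.le_zero.1 ht)]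
        exact Finset.mem_filter.2 ⟨Finset.mem_univ _, hi⟩
      exact absurd this (Finset.notMem_empty _)
    | succ m ih =>
      intro t ht
      by_cases hall : ∀ i, t i ∈ C ∪ B
      · exact hW s t hall
      push Not at hall
      obtain ⟨i, hi⟩ := hall
      -- a new point
      have hex : ∃ w ∈ B, w ∉ insert y ((Finset.univ.erase i).image t) := by
        apply Finset.exists_mem_notMem_of_card_lt_card
        have h3 := Finset.card_insert_le y ((Finset.univ.erase i).image t)
        have h4 : ((Finset.univ.erase i).image t).card ≤ ar s - 1 := by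
          refine Finset.card_image_le.trans ?_
          rw [Finset.card_erase_of_mem (Finset.mem_univ _)]
          simp
        have h5 := hk s
        have h6 : 0 < ar s := i.pos
        omega
      obtain ⟨w, hwB, hw⟩ := hex
      rw [Finset.mem_insert, not_or] at hw
      obtain ⟨hwy, hw⟩ := hw
      have hwt : ∀ j, j ≠ i → t j ≠ w := fun j hj h7 =>
        hw (Finset.mem_image.2 ⟨j, Finset.mem_erase.2 ⟨hj, Finset.mem_univ _⟩, h7⟩)
      have hwi : t i ≠ w := fun h7 => hi (h7 ▸ Finset.mem_union_right _ hwB)
      have hxi : x ≠ t i := fun h7 => hi (h7 ▸ Finset.mem_union_left _ hx)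
      have hyi : y ≠ t i := fun h7 => hi (h7 ▸ Finset.mem_union_right _ hy)
      have hxw : x ≠ w := fun h7 => (Finset.disjoint_left.1 hd) hx (h7 ▸ hwB)
      have hτ : Au R (Equiv.swap (t i) w) := by
        apply SupI.au h
        intro c hc
        apply Equiv.swap_apply_of_ne_of_ne
        · rintro rfl
          exact hi (Finset.mem_union_left _ hc)
        · rintro rfl
          exact (Finset.disjoint_left.1 hd) hc hwB
      have h8 := ih (Equiv.swap (t i) w ∘ t) (by
        have h9 : (Finset.univ.filter fun j => (Equiv.swap (t i) w ∘ t) j ∉ C ∪ B) ⊆ (Finset.univ.filter fun j => t j ∉ C ∪ B).erase i := by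
          intro j
          simp only [Finset.mem_filter, Finset.mem_univ, true_and, Function.comp_apply, Finset.mem_erase]
          by_cases hj : t j = t i
          · rw [hj, Equiv.swap_apply_left]
            intro h10
            exact absurd (Finset.mem_union_right _ hwB) h10
          · have hji : j ≠ i := by rintro rfl; exact hj rfl
            rw [Equiv.swap_apply_of_ne_of_ne hj (hwt j hji)]
            exact fun h10 => ⟨hji, h10⟩
        have h11 := Finset.card_le_card h9
        have h12 : i ∈ (Finset.univ.filter fun j => t j ∉ C ∪ B) := Finset.mem_filter.2 ⟨Finset.mem_univ _, hi⟩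
        rw [Finset.card_erase_of_mem h12] at h11
        omega)
      have h10 : Equiv.swap x y ∘ (Equiv.swap (t i) w ∘ t) = Equiv.swap (t i) w ∘ (Equiv.swap x y ∘ t) := by
        funext j
        simp only [Function.comp_apply]
        have hcomm : Equiv.swap x y * Equiv.swap (t i) w = Equiv.swap (t i) w * Equiv.swap x y := by
          apply Equiv.Perm.Disjoint.commute
          rw [Equiv.Perm.disjoint_iff_eq_or_eq]
          intro a
          by_cases ha : a = x ∨ a = y
          · right
            apply Equiv.swap_apply_of_ne_of_ne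
            · rcases ha with rfl | rfl
              · exact hxi
              · exact hyi
            · rcases ha with rfl | rfl
              · exact hxw
              · exact fun h11 => hwy h11.symm
          · left
            rw [not_or] at ha
            exact Equiv.swap_apply_of_ne_of_ne ha.1 ha.2
        exact congrArg (fun σ : Equiv.Perm M => σ (t j)) hcomm
      rw [h10] at h8
      rw [← hτ s t, ← hτ s (Equiv.swap x y ∘ t)]
      exact h8
  intro t
  exact key _ t le_rfl

theorem shrink : StmtShrink := by
  intro S _ ar χ hun N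
  classical
  -- the arities are bounded
  obtain ⟨k, hk⟩ : ∃ k, ∀ s, ar s ≤ k := by
    obtain ⟨k, hk⟩ := (Set.finite_range ar).bddAbove
    exact ⟨k, fun s => hk ⟨s, rfl⟩⟩
  unfold Bdd at hun
  push Not at hun
  obtain ⟨n, R, hR, hns⟩ := hun (N + k + qd χ + 1)
  -- a minimal support
  have hex : ∃ m, ∃ C : Finset (Fin n), C.card = m ∧ SupI R C := by
    refine ⟨_, Finset.univ, rfl, fun s σ hσ t => ?_⟩
    have : σ ∘ t = t := funext fun i => hσ _ (Finset.mem_univ _)
    rw [this]
  obtain ⟨C, hCc, hC⟩ := Nat.find_spec hex
  set b := Nat.find hex with hb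
  have hmin : ∀ C' : Finset (Fin n), SupI R C' → b ≤ C'.card := fun C' hC' => Nat.find_min' hex ⟨C', rfl, hC'⟩
  have hbig : N + k + qd χ + 1 < b := by
    by_contra hcon
    exact hns C (by omega) hC
  have hCn : b ≤ n := by
    have := Finset.card_le_univ C
    rw [Fintype.card_fin] at this
    omega
  by_cases hn : n ≤ 2 * b
  · exact ⟨n, by omega, R, hR, fun C' hC' => by have := hmin C' hC'; omega⟩
  push Not at hn
  obtain ⟨B, hBsub, hBc⟩ : ∃ B ⊆ Cᶜ, B.card = b := by
    apply Finset.exists_subset_card_eq
    rw [Finset.card_compl, Fintype.card_fin]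
    omega
  have hd : Disjoint C B := by
    rw [Finset.disjoint_left]
    intro c hc hcB
    exact (Finset.mem_compl.1 (hBsub hcB)) hc
  have hWc : (C ∪ B).card = 2 * b := by
    rw [Finset.card_union_of_disjoint hd, hCc, hBc]
    ring
  have hmod : IsMod χ (resI R (C ∪ B)) := by
    have h1 := ef hC hd (n := 0) χ (by rw [hBc]; omega) default default
    have h2 : (fun e => ((default : Empty → (C ∪ B : Finset (Fin n))) e : Fin n)) = (default : Empty → Fin n) := funext fun e => e.elim
    have h3 : (fun i => ((default : Fin 0 → (C ∪ B : Finset (Fin n))) i : Fin n)) = (default : Fin 0 → Fin n) := funext fun e => e.elim0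
    rw [h2, h3] at h1
    exact h1.1 hR
  -- transport
  let e : (C ∪ B : Finset (Fin n)) ≃ Fin (2 * b) := Finset.equivFinOfCardEq hWc
  let R' : Interp S ar (Fin (2 * b)) := fun s t => resI R (C ∪ B) s (e.symm ∘ t)
  refine ⟨2 * b, by omega, R', ?_, ?_⟩
  · let _ := mkS (resI R (C ∪ B))
    let _ := mkS R'
    let E : (C ∪ B : Finset (Fin n)) ≃[RelLang S ar] Fin (2 * b) :=
      { e with
        map_fun' := fun f => Empty.elim f
        map_rel' := by
          intro n r x
          show resI R (C ∪ B) r.1 _ ↔ resI R (C ∪ B) r.1 _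
          have : (e.symm ∘ fun i => (e ∘ x) (Fin.cast r.2 i)) = fun i => x (Fin.cast r.2 i) := by
            funext i
            simp
          exact Iff.of_eq (congrArg _ this) }
    exact (Language.StrongHomClass.realize_sentence E χ).1 hmod
  · intro C' hC'
    by_contra hcon
    have hlt : C'.card < b := by omega
    have hfind : ∀ A : Finset (Fin n), A ⊆ C ∪ B → A.card = b → ∃ x, ∃ hx : x ∈ C ∪ B, x ∈ A ∧ e ⟨x, hx⟩ ∉ C' := by
      intro A hA hAc
      by_contra hall
      push Not at hall
      have h1 : A.card ≤ C'.card := by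
        have h2 : (A.attach.image fun a => e ⟨a.1, hA a.2⟩).card = A.card := by
          rw [Finset.card_image_of_injective, Finset.card_attach]
          intro a a' h3
          have h4 := e.injective h3
          exact Subtype.ext (congrArg (fun q : (C ∪ B : Finset (Fin n)) => (q : Fin n)) h4)
        rw [← h2]
        apply Finset.card_le_card
        intro z hz
        obtain ⟨a, -, rfl⟩ := Finset.mem_image.1 hz
        exact hall a.1 (hA a.2) a.2
      omega
    obtain ⟨x, hxW, hxC, hx'⟩ := hfind C Finset.subset_union_left hCc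
    obtain ⟨y, hyW, hyB, hy'⟩ := hfind B Finset.subset_union_right hBc
    have hyC : y ∉ C := fun h => (Finset.disjoint_left.1 hd) h hyB
    have hau : Au R (Equiv.swap x y) := by
      apply au_swap hC hd hxC hyB
      · intro s
        have := hk s
        omega
      · intro s t ht
        have h1 := hC' s (Equiv.swap (e ⟨x, hxW⟩) (e ⟨y, hyW⟩)) (fun z hz => by
          apply Equiv.swap_apply_of_ne_of_ne
          · rintro rfl; exact hx' hz
          · rintro rfl; exact hy' hz) (fun i => e ⟨t i, ht i⟩)
        have h2 : ∀ i, ((e.symm (Equiv.swap (e ⟨x, hxW⟩) (e ⟨y, hyW⟩) (e ⟨t i, ht i⟩)) : (C ∪ B : Finset (Fin n))) : Fin n) = Equiv.swap x y (t i) := by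
          intro i
          by_cases hi1 : t i = x
          · have h3 : (⟨t i, ht i⟩ : (C ∪ B : Finset (Fin n))) = ⟨x, hxW⟩ := Subtype.ext hi1
            rw [h3, Equiv.swap_apply_left, Equiv.symm_apply_apply, hi1, Equiv.swap_apply_left]
          · by_cases hi2 : t i = y
            · have h3 : (⟨t i, ht i⟩ : (C ∪ B : Finset (Fin n))) = ⟨y, hyW⟩ := Subtype.ext hi2
              rw [h3, Equiv.swap_apply_right, Equiv.symm_apply_apply, hi2, Equiv.swap_apply_right]
            · rw [Equiv.swap_apply_of_ne_of_ne, Equiv.symm_apply_apply, Equiv.swap_apply_of_ne_of_ne hi1 hi2]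
              · exact fun h3 => hi1 (congrArg (fun q : (C ∪ B : Finset (Fin n)) => (q : Fin n)) (e.injective h3))
              · exact fun h3 => hi2 (congrArg (fun q : (C ∪ B : Finset (Fin n)) => (q : Fin n)) (e.injective h3))
        have h4 : (R s fun i => ((e.symm (Equiv.swap (e ⟨x, hxW⟩) (e ⟨y, hyW⟩) (e ⟨t i, ht i⟩)) : (C ∪ B : Finset (Fin n))) : Fin n)) ↔
            (R s fun i => ((e.symm (e ⟨t i, ht i⟩) : (C ∪ B : Finset (Fin n))) : Fin n)) := h1
        simp only [h2, Equiv.symm_apply_apply] at h4
        exact h4
    have h5 := hmin _ (sup_erase hC hxC hyC hau)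
    rw [Finset.card_erase_of_mem hxC, hCc] at h5
    omega

end Pool.Agent.Helper31.QD
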